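import Mathlib
import Pool.Agent.PDM.Stmts
import Pool.Agent.Helper81_PDN.LNK
import Pool.Agent.Helper43_PDN.Oct

/-!
# PDM, row ALF: a vertex of degree four has at most two neighbours of degree four
-/

set_option autoImplicit false

namespace Pool.Agent.PDM.H21

open Pool.Agent.PDN

variable {V : Type}

/-- backward uniqueness -/
theorem uniqB (T : Tri V) {u v v' w : V} (h : T.f u v w) (h' : T.f u v' w) : v = v' := by
  have h1 := T.cyc (T.cyc h)
  have h2 := T.cyc (T.cyc h')
  exact T.uniq h1 h2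

/-- a property closed under adjacency that holds somewhere holds everywhere -/
theorem closed_all {G : SimpleGraph V} (hG : G.Connected) (P : V → Prop)
    (hP : ∀ v w, G.Adj v w → P v → P w) {t : V} (ht : P t) (v : V) : P v := by
  obtain ⟨p⟩ := hG.preconnected t v
  induction p with
  | nil => exact ht
  | cons h p ih => exact ih (hP _ _ h ht)

theorem alf_of (lnk : LnkStmt) (oct : OctStmt) : AlfStmt := by
  intro V _ T hcon ⟨v0, hv0⟩ t n₁ n₂ n₃ n₄ ht h12 h23 h34 h41 ⟨d1, d2, d3⟩
  have d4 : T.deg n₄ = 4 := oct V T t n₄ n₁ n₂ n₃ ht h41 h12 h23 h34 d1 d2 d3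
  let P : V → Prop := fun v => T.deg v = 4 ∧ ∀ w, T.Adj v w → T.deg w = 4
  have hPt : P t := by
    refine ⟨ht, ?_⟩
    intro w hw
    obtain ⟨m2, m3, m4, g12, g23, g34, g41, _, _, _, _, _, _, hall⟩ := lnk V T t n₁ ht ⟨_, h12⟩
    have e2 : m2 = n₂ := T.uniq g12 h12
    subst e2
    have e3 : m3 = n₃ := T.uniq g23 h23
    subst e3
    have e4 : m4 = n₄ := T.uniq g34 h34
    subst e4
    rcases (hall w).1 hw with h | h | h | h <;> rw [h] <;> assumption
  have hstep : ∀ v w, T.graph.Adj v w → P v → P w := by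
    intro v w hvw hv
    obtain ⟨dv, hv⟩ := hv
    have hvw' : T.Adj v w := hvw
    have dw : T.deg w = 4 := hv w hvw'
    obtain ⟨m2, m3, m4, g12, g23, g34, g41, _, _, _, _, _, _, hall⟩ := lnk V T v w dv hvw'
    obtain ⟨p2, p3, p4, k12, k23, k34, k41, _, _, _, _, _, _, kall⟩ :=
      lnk V T w v dw (T.adj_symm hvw')
    have em2 : m2 = p4 := by
      -- `f v w m2`, `f w m2 v`, `f w p4 v`
      exact uniqB T (T.cyc g12) k41
    have em4 : m4 = p2 := by
      -- `f v m4 w`: `f w v m4`
      exact T.uniq (T.cyc (T.cyc g41)) k12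
    have dm2 : T.deg p4 = 4 := by
      rw [← em2]
      exact hv _ ⟨_, g23⟩
    have dm4 : T.deg p2 = 4 := by
      rw [← em4]
      exact hv _ ⟨_, g41⟩
    have dp3 : T.deg p3 = 4 := oct V T w p3 p4 v p2 dw k34 k41 k12 k23 dm2 dv dm4
    refine ⟨dw, ?_⟩
    intro x hx
    rcases (kall x).1 hx with h | h | h | h <;> rw [h] <;> assumption
  exact hv0 (closed_all hcon P hstep hPt v0).1

/-- ALF without hypotheses -/
theorem alf : AlfStmt := alf_of H81.lnk (H43.oct H81.lnk)

end Pool.Agent.PDM.H21
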